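import Pool.Agent.W844.GP.Defs
import Pool.Agent.W844.VG.Cut

/-!
# GP-SUR: surgery around a finite set
-/

set_option autoImplicit false

open Finset
open scoped Classical

namespace Pool.Agent.W612.GP

open Pool.Agent.W844.VG Pool.Agent.W844.GP

variable {d : ℕ}

lemma adj_comm {x y : V d} (h : adj x y) : adj y x := by
  unfold adj at h ⊢
  rw [← h]
  exact Finset.sum_congr rfl (fun j _ => abs_sub_comm _ _)

lemma adj_stp (x : V d) (j : Fin d) : adj x (x + stp j) := by
  unfold adj
  rw [Finset.sum_eq_single j]
  · rw [Pi.add_apply, stp_same]; simp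
  · intro k _ hk
    rw [Pi.add_apply, stp_ne hk]; simp
  · intro h; exact absurd (Finset.mem_univ _) h

lemma stp_of_adj {x y : V d} (h : adj x y) : ∃ j, y = x + stp j ∨ x = y + stp j := by
  unfold adj at h
  have h1 : ∃ j, y j - x j ≠ 0 := by
    by_contra hcon
    push Not at hcon
    rw [Finset.sum_eq_zero (fun j _ => by rw [hcon j, abs_zero])] at h
    exact absurd h (by norm_num)
  obtain ⟨j, hj⟩ := h1
  have hj1 : 1 ≤ |y j - x j| := Int.one_le_abs hj
  have hsplit := Finset.add_sum_erase univ (fun k => |y k - x k|) (Finset.mem_univ j)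
  rw [h] at hsplit
  have hnn : 0 ≤ ∑ k ∈ univ.erase j, |y k - x k| := Finset.sum_nonneg (fun k _ => abs_nonneg _)
  have hj2 : |y j - x j| = 1 := by omega
  have hz : ∑ k ∈ univ.erase j, |y k - x k| = 0 := by omega
  have hz2 : ∀ k, k ≠ j → y k = x k := by
    intro k hk
    have := (Finset.sum_eq_zero_iff_of_nonneg (fun k _ => abs_nonneg _)).mp hz k
      (Finset.mem_erase.mpr ⟨hk, Finset.mem_univ k⟩)
    have h3 := abs_eq_zero.mp this
    omega
  rcases abs_eq (by norm_num : (0 : ℤ) ≤ 1) |>.mp hj2 with h4 | h4
  · refine ⟨j, Or.inl ?_⟩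
    funext k
    rw [Pi.add_apply, stp_apply]
    split_ifs with hk
    · subst hk; omega
    · rw [hz2 k hk]; omega
  · refine ⟨j, Or.inr ?_⟩
    funext k
    rw [Pi.add_apply, stp_apply]
    split_ifs with hk
    · subst hk; omega
    · rw [hz2 k hk]; omega

/-- a chain along which a function changes has an edge where it changes -/
lemma exists_step {α β : Type} (r : α → α → Prop) (g : α → β) : ∀ (l : List α) (u v : α),
    (u :: l).IsChain r → (u :: l).getLast? = some v → g u ≠ g v →
    ∃ x y, x ∈ u :: l ∧ y ∈ u :: l ∧ r x y ∧ g x ≠ g y := by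
  intro l
  induction l with
  | nil =>
    intro u v _ hl hg
    simp only [List.getLast?_singleton, Option.some.injEq] at hl
    rw [hl] at hg
    exact absurd rfl hg
  | cons a l ih =>
    intro u v hc hl hg
    rw [List.isChain_cons_cons] at hc
    by_cases hua : g u = g a
    · rw [List.getLast?_cons_cons] at hl
      obtain ⟨x, y, hx, hy, hr, hxy⟩ := ih a v hc.2 hl (by rw [← hua]; exact hg)
      exact ⟨x, y, List.mem_cons_of_mem _ hx, List.mem_cons_of_mem _ hy, hr, hxy⟩
    · exact ⟨u, a, by simp, by simp, hc.1, hua⟩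

/-- constancy on lines -/
lemma line_const {β : Type} (f : ℤ → β) (h : ∀ t, f (t + 1) = f t) (s t : ℤ) : f s = f t := by
  have h0 : ∀ t, f t = f 0 := by
    intro t
    induction t using Int.induction_on with
    | zero => rfl
    | succ n ih => rw [h]; exact ih
    | pred n ih =>
      have := h (-(n : ℤ) - 1)
      rw [sub_add_cancel] at this
      rw [← this]; exact ih
  rw [h0 s, h0 t]

lemma update_stp (z : V d) (k : Fin d) (t : ℤ) :
    Function.update z k (t + 1) = Function.update z k t + stp k := by
  funext m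
  by_cases hm : m = k
  · subst hm; simp [stp_same]
  · simp [hm, stp_ne hm]

/-- moving along a line which avoids `A` -/
lemma move (A : Set (V d)) (g : V d → ZMod 2)
    (hg : ∀ e : E d, e ∈ bd g → e.1 ∈ A ∨ e.1 + stp e.2 ∈ A) (z : V d) (k : Fin d)
    (hz : ∀ s, Function.update z k s ∉ A) (t : ℤ) : g (Function.update z k t) = g z := by
  have h := line_const (fun t => g (Function.update z k t)) (fun t => by
    by_contra hcon
    have he : ((Function.update z k t, k) : E d) ∈ bd g := by
      show g (Function.update z k t + stp k) ≠ g (Function.update z k t)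
      rw [← update_stp]
      exact hcon
    rcases hg _ he with h | h
    · exact hz _ h
    · apply hz (t + 1)
      rw [update_stp]
      exact h) t (z k)
  simp only [Function.update_eq_self] at h
  exact h

/-- moving inside the plane `z j = M` -/
lemma plane (A : Set (V d)) (g : V d → ZMod 2)
    (hg : ∀ e : E d, e ∈ bd g → e.1 ∈ A ∨ e.1 + stp e.2 ∈ A) (j : Fin d) (M : ℤ)
    (hM : ∀ z : V d, z j = M → z ∉ A) (z z' : V d) (hz : z j = M) (hz' : z' j = M) :
    g z = g z' := by
  have key : ∀ s : Finset (Fin d), g (fun k => if k ∈ s then z' k else z k) = g z := by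
    intro s
    induction s using Finset.induction_on with
    | empty => simp
    | insert k s hk ih =>
      rw [← ih]
      have e : (fun m => if m ∈ insert k s then z' m else z m) =
          Function.update (fun m => if m ∈ s then z' m else z m) k (z' k) := by
        funext m
        by_cases hm : m = k
        · subst hm; simp
        · simp [hm]
      rw [e]
      by_cases hkj : k = j
      · have e2 : Function.update (fun m => if m ∈ s then z' m else z m) k (z' k) =
            (fun m => if m ∈ s then z' m else z m) := by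
          funext m
          by_cases hm : m = k
          · subst hm
            subst hkj
            simp only [Function.update_self]
            rw [if_neg hk, hz, hz']
          · simp [hm]
        rw [e2]
      · apply move A g hg
        intro t
        apply hM
        rw [Function.update_of_ne (Ne.symm hkj)]
        split_ifs
        · exact hz'
        · exact hz
  have h := key univ
  simp only [Finset.mem_univ, if_true] at h
  exact h.symm

/-- the graph of the steps inside `U` -/
def gU (U : Set (V d)) : SimpleGraph (V d) where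
  Adj x y := adj x y ∧ x ∈ U ∧ y ∈ U
  symm := ⟨fun x y h => ⟨adj_comm h.1, h.2.2, h.2.1⟩⟩
  loopless := ⟨fun x h => by
    have h1 := h.1
    unfold adj at h1
    simp at h1⟩

lemma reach_mem (U : Set (V d)) (u x : V d) (hu : u ∈ U) (h : (gU U).Reachable u x) : x ∈ U := by
  obtain ⟨p⟩ := h
  cases p using SimpleGraph.Walk.concatRec with
  | Hnil => exact hu
  | Hconcat p h => exact h.2.2

theorem sur : Pool.Agent.W844.GP.S_SUR := by
  intro d i hd A hA u v l hchain hlast hheight
  have huA : u ∉ A := fun h => absurd (hheight u h).1 (lt_irrefl _)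
  have hvA : v ∉ A := fun h => absurd (hheight v h).2 (lt_irrefl _)
  obtain ⟨U, hU⟩ : ∃ U : Set (V d), U = {z | z ∉ A ∧ (z ∈ u :: l ∨ z ∈ Nb A 2)} := ⟨_, rfl⟩
  have hUmem : ∀ z, z ∈ U ↔ z ∉ A ∧ (z ∈ u :: l ∨ z ∈ Nb A 2) := fun z => by rw [hU]; rfl
  have huU : u ∈ U := (hUmem u).mpr ⟨huA, Or.inl (by simp)⟩
  have hUfin : U.Finite := by
    have h1 : ({z | z ∈ u :: l} : Set (V d)).Finite := List.finite_toSet (u :: l)
    have h2 : (Nb A 2).Finite := by
      have h3 : Nb A 2 ⊆ ⋃ y ∈ A, (fun z => y + z) '' ((Fintype.piFinset fun _ : Fin d =>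
          Finset.Icc (-2 : ℤ) 2 : Finset (V d)) : Set (V d)) := by
        rintro x ⟨y, hy, hxy⟩
        rw [Set.mem_iUnion₂]
        refine ⟨y, hy, x - y, ?_, by simp⟩
        rw [Finset.mem_coe, Fintype.mem_piFinset]
        intro k
        have := abs_le_nm (x - y) k
        rw [Finset.mem_Icc]
        have h4 : |(x - y) k| ≤ 2 := this.trans (by exact_mod_cast hxy)
        exact abs_le.mp h4
      exact (hA.biUnion (fun y _ => (Finset.finite_toSet _).image _)).subset h3
    refine (h1.union h2).subset ?_
    intro z hz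
    rcases ((hUmem z).mp hz).2 with h | h
    · exact Or.inl h
    · exact Or.inr h
  obtain ⟨C, hC⟩ : ∃ C : Set (V d), C = {x | (gU U).Reachable u x} := ⟨_, rfl⟩
  have hCmem : ∀ z, z ∈ C ↔ (gU U).Reachable u z := fun z => by rw [hC]; rfl
  have hCU : C ⊆ U := fun x hx => reach_mem U u x huU ((hCmem x).mp hx)
  have hCfin : C.Finite := hUfin.subset hCU
  have huC : u ∈ C := (hCmem u).mpr (SimpleGraph.Reachable.refl _)
  -- growth of `C`
  have hgrow : ∀ x y, x ∈ C → y ∉ C → adj x y → y ∉ U := by
    intro x y hx hy hxy hyU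
    apply hy
    rw [hCmem] at hx ⊢
    have hadj : (gU U).Adj x y := ⟨hxy, hCU ((hCmem x).mpr hx), hyU⟩
    exact hx.trans hadj.reachable
  by_cases hvC : v ∈ C
  · -- a path inside `U`
    obtain ⟨p⟩ := (hCmem v).mp hvC
    obtain ⟨q, hq⟩ : ∃ q : (gU U).Walk u v, q.IsPath := ⟨p.toPath.1, p.toPath.2⟩
    have hsup : u :: q.support.tail = q.support := q.cons_tail_support
    refine ⟨q.support.tail, ⟨?_, ?_⟩, ?_, ?_⟩
    · rw [hsup]
      exact q.isChain_adj_support.imp (fun _ _ h => h.1)
    · rw [hsup]; exact hq.support_nodup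
    · rw [hsup]
      rw [List.getLast?_eq_getLast_of_ne_nil q.support_ne_nil]
      rw [q.getLast_support]
    · intro z hz
      rw [hsup] at hz
      have hzC : z ∈ C := (hCmem z).mpr ⟨q.takeUntil z hz⟩
      exact (hUmem z).mp (hCU hzC)
  · exfalso
    obtain ⟨g, hg⟩ : ∃ g : V d → ZMod 2, ∀ z, g z = if z ∈ C then 1 else 0 := ⟨_, fun z => rfl⟩
    have hbd : ∀ e : E d, e ∈ bd g → (e.1 ∈ C ∧ e.1 + stp e.2 ∉ C) ∨
        (e.1 ∉ C ∧ e.1 + stp e.2 ∈ C) := by
      intro e he
      have he' : g (e.1 + stp e.2) ≠ g e.1 := he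
      rw [hg, hg] at he'
      by_cases h1 : e.1 ∈ C <;> by_cases h2 : e.1 + stp e.2 ∈ C
      · simp [h1, h2] at he'
      · exact Or.inl ⟨h1, h2⟩
      · exact Or.inr ⟨h1, h2⟩
      · simp [h1, h2] at he'
    have hbdfin : (bd g).Finite := by
      have hsub : bd g ⊆ (C ×ˢ (Set.univ : Set (Fin d))) ∪
          (fun e : V d × Fin d => (e.1 - stp e.2, e.2)) '' (C ×ˢ (Set.univ : Set (Fin d))) := by
        intro e he
        rcases hbd e he with h | h
        · exact Or.inl ⟨h.1, Set.mem_univ _⟩
        · refine Or.inr ⟨(e.1 + stp e.2, e.2), ⟨h.2, Set.mem_univ _⟩, ?_⟩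
          simp
      exact ((hCfin.prod Set.finite_univ).union ((hCfin.prod Set.finite_univ).image _)).subset hsub
    obtain ⟨g', hsub, hne, hstar⟩ := cut d g u v hbdfin (by
      rw [hg, hg, if_pos huC, if_neg hvC]; decide)
    -- a boundary edge one of whose endpoints lies in a good set has an endpoint in `A`
    have hside : ∀ e : E d, e ∈ bd g → ((e.1 ∈ A ∨ (e.1 ∈ u :: l ∨ e.1 ∈ Nb A 2)) ∧
        (e.1 + stp e.2 ∈ A ∨ (e.1 + stp e.2 ∈ u :: l ∨ e.1 + stp e.2 ∈ Nb A 2))) →
        e.1 ∈ A ∨ e.1 + stp e.2 ∈ A := by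
      intro e he ⟨h1, h2⟩
      rcases hbd e he with h | h
      · by_contra hcon
        push Not at hcon
        apply hgrow e.1 (e.1 + stp e.2) h.1 h.2 (adj_stp _ _)
        rw [hUmem]
        exact ⟨hcon.2, h2.resolve_left hcon.2⟩
      · by_contra hcon
        push Not at hcon
        apply hgrow (e.1 + stp e.2) e.1 h.2 h.1 (adj_comm (adj_stp _ _))
        rw [hUmem]
        exact ⟨hcon.1, h1.resolve_left hcon.1⟩
    -- an edge of the path in the boundary
    obtain ⟨x, y, hx, hy, hxy, hgxy⟩ := exists_step adj g' l u v hchain hlast hne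
    obtain ⟨e, he, heA⟩ : ∃ e : E d, e ∈ bd g' ∧ (e.1 ∈ A ∨ e.1 + stp e.2 ∈ A) := by
      obtain ⟨j, hj | hj⟩ := stp_of_adj hxy
      · have he : ((x, j) : E d) ∈ bd g' := by
          show g' (x + stp j) ≠ g' x
          rw [← hj]; exact hgxy.symm
        refine ⟨(x, j), he, hside _ (hsub he) ⟨Or.inr (Or.inl hx), Or.inr (Or.inl ?_)⟩⟩
        show x + stp j ∈ u :: l
        rw [← hj]; exact hy
      · have he : ((y, j) : E d) ∈ bd g' := by
          show g' (y + stp j) ≠ g' y
          rw [← hj]; exact hgxy
        refine ⟨(y, j), he, hside _ (hsub he) ⟨Or.inr (Or.inl hy), Or.inr (Or.inl ?_)⟩⟩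
        show y + stp j ∈ u :: l
        rw [← hj]; exact hx
    -- all the edges of the boundary have an endpoint in `A`
    have hprop : ∀ a b : E d, b ∈ bd g' → nm (b.1 - a.1) ≤ 1 →
        (a.1 ∈ A ∨ a.1 + stp a.2 ∈ A) → (b.1 ∈ A ∨ b.1 + stp b.2 ∈ A) := by
      intro a b hb hab haA
      apply hside b (hsub hb)
      have hco : ∀ k, |b.1 k - a.1 k| ≤ 1 := by
        intro k
        have := abs_le_nm (b.1 - a.1) k
        rw [Pi.sub_apply] at this
        exact this.trans (by exact_mod_cast hab)
      have hnear : ∀ p q : V d, (∀ k, |p k - q k| ≤ 2) → q ∈ A → p ∈ Nb A 2 := by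
        intro p q hpq hq
        refine ⟨q, hq, nm_le_of_abs (fun k => ?_)⟩
        rw [Pi.sub_apply]
        exact_mod_cast hpq k
      rcases haA with haA | haA
      · refine ⟨Or.inr (Or.inr (hnear _ _ (fun k => ?_) haA)),
          Or.inr (Or.inr (hnear _ _ (fun k => ?_) haA))⟩
        · exact (hco k).trans (by norm_num)
        · have h1 := abs_le.mp (hco k)
          rw [Pi.add_apply, stp_apply, abs_le]
          split_ifs <;> constructor <;> omega
      · refine ⟨Or.inr (Or.inr (hnear _ _ (fun k => ?_) haA)),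
          Or.inr (Or.inr (hnear _ _ (fun k => ?_) haA))⟩
        · have h1 := abs_le.mp (hco k)
          rw [Pi.add_apply, stp_apply, abs_le]
          split_ifs <;> constructor <;> omega
        · have h1 := abs_le.mp (hco k)
          rw [Pi.add_apply, Pi.add_apply, stp_apply, stp_apply, abs_le]
          split_ifs <;> constructor <;> omega
    have hall : ∀ f : E d, f ∈ bd g' → f.1 ∈ A ∨ f.1 + stp f.2 ∈ A := by
      intro f hf
      have h := hstar e he f hf
      induction h with
      | refl => exact heA
      | tail _ hbc ih => exact hprop _ _ hbc.2.1 hbc.2.2 (ih hbc.1)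
    -- escape
    obtain ⟨j, hji⟩ : ∃ j : Fin d, j ≠ i := by
      have : Nontrivial (Fin d) := Fin.nontrivial_iff_two_le.mpr hd
      exact exists_ne i
    obtain ⟨M, hM⟩ : ∃ M : ℤ, ∀ a ∈ A, a j < M := by
      obtain ⟨M, hM⟩ := (hA.image (fun a => a j)).bddAbove
      exact ⟨M + 1, fun a ha => by
        have := hM ⟨a, ha, rfl⟩
        simp only at this
        omega⟩
    have h1 : g' (Function.update u j M) = g' u := by
      apply move A g' hall
      intro s hs
      have := (hheight _ hs).1
      rw [Function.update_of_ne hji.symm] at this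
      exact absurd this (lt_irrefl _)
    have h2 : g' (Function.update v j M) = g' v := by
      apply move A g' hall
      intro s hs
      have := (hheight _ hs).2
      rw [Function.update_of_ne hji.symm] at this
      exact absurd this (lt_irrefl _)
    have h3 : g' (Function.update u j M) = g' (Function.update v j M) := by
      apply plane A g' hall j M
      · intro z hz hzA
        have := hM z hzA
        omega
      · simp
      · simp
    exact hne (by rw [← h1, ← h2, h3])

end Pool.Agent.W612.GP
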